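import Pool.Agent.KS6_42.ML.Defs
import Pool.Agent.KS6_42.ML.Gam
import Pool.Agent.KS6_42.ML.Exp
import Pool.Graph.R_pool_sql_team_seeded_64922ed1.Results.MP_38d52f_an.CompletelyMonotone

/-!
# The exact range of complete monotonicity of the Mittag-Leffler square sum

For `α > 0` the function `f_α(t) = |E_{2α,1}(-t)|² + t |E_{2α,1+α}(-t)|²` is completely monotone on
`(0, ∞)` if and only if `α ≤ 1/2` or `α = 1` (and `f_1 = 1`).

For `α ≤ 1/2` this is the theorem of the library. For `α > 1/2` the function `f_α` is entire of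
order less than one, and `f_α'(0) = 1/Γ(1+α)² - 2/Γ(1+2α)` is negative for `α < 1` and positive for
`α > 1`. An entire completely monotone function `F` with `F(0) = 1` and `F'(0) = -μ` satisfies
`F(-x) ≥ 2 ^ (μ x)` for `x > 0`, which excludes the case `1/2 < α < 1`.
-/

open Finset Filter Topology

namespace Pool.Agent.Results.MP_38d52f_an.ExactRange

open Pool.Agent.KS6_42.ML Pool.Agent.X116.MS Pool.Agent.X116.CMser

lemma sqSum_eq {α : ℝ} (h0 : 0 < α) (t : ℝ) : sqSum α t = gk (T (Ui α) (Ui α)) 0 t :=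
  Pool.Agent.Results.MP_38d52f_an.CompletelyMonotone.f_eq h0 t

lemma hbd {α : ℝ} (h0 : 0 < α) : Bd (T (Ui α) (Ui α)) :=
  Pool.Agent.Results.MP_38d52f_an.CompletelyMonotone.bd h0

lemma gk_zero (m : ℕ → ℝ) (j : ℕ) : gk m j 0 = m j := by
  unfold gk
  rw [tsum_eq_single 0]
  · simp
  · intro n hn
    rw [neg_zero, zero_pow hn, mul_zero]

lemma T_zero (α : ℝ) : T (Ui α) (Ui α) 0 = 1 := by
  unfold T Ui
  simp

lemma T_one (α : ℝ) : T (Ui α) (Ui α) 1
    = 2 / Real.Gamma (1 + 2 * α) - 1 / Real.Gamma (1 + α) ^ 2 := by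
  unfold T Ui
  simp only [Nat.factorial_one, Nat.cast_one, one_mul, Finset.sum_range_succ, Finset.range_zero,
    Finset.sum_empty]
  norm_num
  rw [mul_comm α 2]
  ring

/-- positivity of all the functions `gk` -/
lemma gk_nonneg {α : ℝ} (h0 : 0 < α) (h : CM (sqSum α)) (k : ℕ) {t : ℝ} (ht : 0 < t) :
    0 ≤ gk (T (Ui α) (Ui α)) k t := by
  have e : sqSum α = gk (T (Ui α) (Ui α)) 0 := funext (sqSum_eq h0)
  have := h.2 k t ht
  rw [e, iter (hbd h0)] at this
  simp only at this
  rw [← mul_assoc, ← mul_pow] at this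
  norm_num at this
  exact this

/-- the growth of the Mittag-Leffler function of order less than one -/
lemma E_le {α : ℝ} (h : 1 / 2 < α) {d : ℝ} (hd : 0 < d) : ∃ C : ℝ, 0 < C ∧ ∀ x : ℝ, 0 ≤ x →
    E (2 * α) 1 x ≤ C * Real.exp (d * x) := by
  obtain ⟨C, hC, hb⟩ := small_of_gamma (α := 2 * α - 1) (by linarith) d hd
  refine ⟨C, hC, fun x hx => ?_⟩
  have hterm : ∀ k : ℕ, x ^ k / Real.Gamma (2 * α * k + 1) ≤ C * ((d * x) ^ k / (k.factorial : ℝ)) := by
    intro k
    have h1 := gamma_mul_le (x := (k : ℝ)) (y := (2 * α - 1) * k) (by positivity)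
      (mul_nonneg (by linarith) (by positivity))
    have e1 : 1 + (k : ℝ) + (2 * α - 1) * k = 2 * α * k + 1 := by ring
    have e2 : Real.Gamma (1 + (k : ℝ)) = (k.factorial : ℝ) := by
      rw [add_comm, Real.Gamma_nat_eq_factorial]
    rw [e1, e2] at h1
    have h2 := hb k
    have p1 : 0 < Real.Gamma (1 + (2 * α - 1) * k) :=
      Real.Gamma_pos_of_pos (by
        have : 0 ≤ (2 * α - 1) * (k : ℝ) := mul_nonneg (by linarith) (by positivity)
        linarith)
    simp only at h2
    rw [abs_of_pos (by positivity)] at h2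
    have p2 : (0 : ℝ) < (k.factorial : ℝ) := by positivity
    calc x ^ k / Real.Gamma (2 * α * k + 1)
        ≤ x ^ k / ((k.factorial : ℝ) * Real.Gamma (1 + (2 * α - 1) * k)) := by
          gcongr
      _ = x ^ k / (k.factorial : ℝ) * (1 / Real.Gamma (1 + (2 * α - 1) * k)) := by
          field_simp
      _ ≤ x ^ k / (k.factorial : ℝ) * (C * d ^ k) := by gcongr
      _ = C * ((d * x) ^ k / (k.factorial : ℝ)) := by rw [mul_pow]; ring
  have hexp : HasSum (fun k : ℕ => C * ((d * x) ^ k / (k.factorial : ℝ))) (C * Real.exp (d * x)) := by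
    rw [Real.exp_eq_exp_ℝ]
    exact (NormedSpace.expSeries_div_hasSum_exp (d * x)).mul_left C
  have hsm : Summable fun k : ℕ => x ^ k / Real.Gamma (2 * α * k + 1) := by
    refine Summable.of_nonneg_of_le (fun k => ?_) hterm hexp.summable
    have : 0 < Real.Gamma (2 * α * k + 1) := Real.Gamma_pos_of_pos (by positivity)
    positivity
  exact hasSum_le hterm hsm.hasSum hexp

lemma E_nonneg {α : ℝ} (h : 0 < α) {x : ℝ} (hx : 0 ≤ x) : 0 ≤ E (2 * α) 1 x := by
  unfold E
  refine tsum_nonneg fun k => ?_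
  have : 0 < Real.Gamma (2 * α * k + 1) := Real.Gamma_pos_of_pos (by positivity)
  positivity

/-- no complete monotonicity for `1/2 < α < 1` -/
lemma not_cm_mid {α : ℝ} (h : 1 / 2 < α) (h1 : α < 1) : ¬ CM (sqSum α) := by
  intro hcm
  have h0 : 0 < α := by linarith
  set μ : ℝ := T (Ui α) (Ui α) 1 with hμ
  have hμp : 0 < μ := by
    rw [hμ, T_one]
    have g := gamma_lt h h1
    have p1 : 0 < Real.Gamma (1 + 2 * α) := Real.Gamma_pos_of_pos (by linarith)
    have p2 : 0 < Real.Gamma (1 + α) := Real.Gamma_pos_of_pos (by linarith)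
    rw [sub_pos, div_lt_div_iff₀ (by positivity) p1]
    linarith
  set c : ℝ := μ * Real.log 2 with hc
  have hcp : 0 < c := mul_pos hμp (Real.log_pos (by norm_num))
  obtain ⟨C, hC, hE⟩ := E_le h (d := c / 4) (by positivity)
  have key : ∀ x : ℝ, 0 < x → Real.exp (c / 2 * x) ≤ C ^ 2 := by
    intro x hx
    have g := growth (hbd h0) (T_zero α) hx fun k => gk_nonneg h0 hcm k hx
    rw [← sqSum_eq h0] at g
    have e1 : sqSum α (-x) ≤ E (2 * α) 1 x ^ 2 := by
      unfold sqSum
      rw [neg_neg, sq_abs, sq_abs]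
      nlinarith [sq_nonneg (E (2 * α) (1 + α) x)]
    have e2 : E (2 * α) 1 x ^ 2 ≤ (C * Real.exp (c / 4 * x)) ^ 2 :=
      pow_le_pow_left₀ (E_nonneg h0 hx.le) (hE x hx.le) 2
    have e3 : (C * Real.exp (c / 4 * x)) ^ 2 = C ^ 2 * Real.exp (c / 2 * x) := by
      rw [mul_pow, ← Real.exp_nat_mul]
      congr 2
      push_cast
      ring
    have e4 : Real.exp (x * μ * Real.log 2) = Real.exp (c / 2 * x) * Real.exp (c / 2 * x) := by
      rw [← Real.exp_add]
      congr 1
      rw [hc]
      ring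
    rw [← hμ, e4] at g
    have e5 : 0 < Real.exp (c / 2 * x) := Real.exp_pos _
    have e6 : Real.exp (c / 2 * x) * Real.exp (c / 2 * x) ≤ C ^ 2 * Real.exp (c / 2 * x) :=
      g.trans (e1.trans (e2.trans e3.le))
    exact le_of_mul_le_mul_right e6 e5
  have k1 := key (2 / c * C ^ 2) (by positivity)
  have k2 := Real.add_one_le_exp (c / 2 * (2 / c * C ^ 2))
  have k3 : c / 2 * (2 / c * C ^ 2) = C ^ 2 := by
    field_simp
  rw [k3] at k1 k2
  linarith

/-- no complete monotonicity for `α > 1` -/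
lemma not_cm_large {α : ℝ} (h1 : 1 < α) : ¬ CM (sqSum α) := by
  intro hcm
  have h0 : 0 < α := by linarith
  have hneg : T (Ui α) (Ui α) 1 < 0 := by
    rw [T_one]
    have g := lt_gamma h1
    have p1 : 0 < Real.Gamma (1 + 2 * α) := Real.Gamma_pos_of_pos (by linarith)
    have p2 : 0 < Real.Gamma (1 + α) := Real.Gamma_pos_of_pos (by linarith)
    rw [sub_neg, div_lt_div_iff₀ p1 (by positivity)]
    linarith
  have hcont : Continuous (gk (T (Ui α) (Ui α)) 1) :=
    continuous_iff_continuousAt.mpr fun x => (gk_deriv (hbd h0) 1 x).continuousAt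
  have hlim : Tendsto (gk (T (Ui α) (Ui α)) 1) (𝓝[>] 0) (𝓝 (T (Ui α) (Ui α) 1)) := by
    have := (hcont.tendsto 0).mono_left (nhdsWithin_le_nhds (s := Set.Ioi (0 : ℝ)))
    rwa [gk_zero] at this
  have hge : 0 ≤ T (Ui α) (Ui α) 1 := by
    refine ge_of_tendsto hlim ?_
    filter_upwards [self_mem_nhdsWithin] with t ht
    exact gk_nonneg h0 hcm 1 ht
  linarith

/-- `f_1` is the constant `1` -/
lemma sqSum_one (t : ℝ) : sqSum 1 t = 1 := by
  rw [sqSum_eq one_pos]
  have hT : ∀ N : ℕ, T (Ui 1) (Ui 1) N = if N = 0 then 1 else 0 := by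
    intro N
    unfold T
    have e : ∀ k ∈ range (2 * N + 1), (-1 : ℝ) ^ k * Ui 1 (2 * N - k) * Ui 1 k
        = ((-1) ^ k * ((2 * N).choose k : ℝ)) * (1 / ((2 * N).factorial : ℝ)) := by
      intro k hk
      have hk' : k ≤ 2 * N := Nat.lt_succ_iff.mp (Finset.mem_range.mp hk)
      have u : ∀ j : ℕ, Ui 1 j = 1 / (j.factorial : ℝ) := by
        intro j
        unfold Ui
        rw [one_mul, add_comm, Real.Gamma_nat_eq_factorial]
      rw [u, u, Nat.cast_choose ℝ hk']
      have h1 : ((2 * N).factorial : ℝ) ≠ 0 := by positivity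
      have h2 : (k.factorial : ℝ) ≠ 0 := by positivity
      have h3 : ((2 * N - k).factorial : ℝ) ≠ 0 := by positivity
      field_simp
    rw [Finset.sum_congr rfl e, ← Finset.sum_mul]
    have h2 := Int.alternating_sum_range_choose (n := 2 * N)
    have h3 : (∑ k ∈ range (2 * N + 1), (-1 : ℝ) ^ k * ((2 * N).choose k : ℝ))
        = if 2 * N = 0 then 1 else 0 := by
      have := congrArg (fun z : ℤ => (z : ℝ)) h2
      push_cast at this
      exact this
    rw [h3]
    rcases Nat.eq_zero_or_pos N with hN | hN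
    · subst hN
      simp
    · have h4 : 2 * N ≠ 0 := by omega
      have h5 : N ≠ 0 := by omega
      simp [h5]
  unfold gk
  rw [tsum_eq_single 0]
  · simp [hT]
  · intro n hn
    simp [hT, hn]

/-- **Main theorem.** For every `α > 0`, the function
`f_α(t) = |E_{2α,1}(-t)|² + t |E_{2α,1+α}(-t)|²` is completely monotone on `(0, ∞)` if and only if
`α ≤ 1/2` or `α = 1`. -/
theorem result (α : ℝ) (h0 : 0 < α) : CM (sqSum α) ↔ α ≤ 1 / 2 ∨ α = 1 := by
  constructor
  · intro h
    by_contra hne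
    push Not at hne
    rcases lt_or_gt_of_ne hne.2 with h1 | h1
    · exact not_cm_mid hne.1 h1 h
    · exact not_cm_large h1 h
  · rintro (h | h)
    · exact Pool.Agent.Results.MP_38d52f_an.CompletelyMonotone.result α h0 h
    · subst h
      have e : sqSum 1 = fun _ => (1 : ℝ) := funext sqSum_one
      rw [e]
      refine ⟨contDiffOn_const, fun n t _ => ?_⟩
      rcases Nat.eq_zero_or_pos n with hn | hn
      · subst hn
        simp
      · rw [iteratedDeriv_const]
        simp [hn.ne']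

end Pool.Agent.Results.MP_38d52f_an.ExactRange
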